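import Pool.Agent.K1H47.RC.Stm2

set_option autoImplicit false

/-! Images of the points of a curve under an iterate: the piece `S_GEN`. -/

namespace Pool.Agent.K1H45.RC

open Pool.Agent.K1H47.RC Pool.Agent.H936R2 Pool.Agent.R847.Gap Pool.Agent.K1H69.MZ
open MvPolynomial

variable {K : Type} [Field K] {ι : Type} {S : Set (MvPolynomial ι K)}

/-- the image is unique up to a factor -/
theorem img_uniq (φ : Aut S) {z : ι → K} (hz : z ≠ 0) (hS : ∀ s ∈ S, eval z s = 0) (k : ℕ) :
    ∀ {w w' : ι → K}, Img φ k z w → Img φ k z w' → ∃ c : K, c ≠ 0 ∧ w' = c • w := by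
  induction k with
  | zero =>
    rintro w w' rfl rfl
    exact ⟨1, one_ne_zero, (one_smul _ _).symm⟩
  | succ k ih =>
    rintro w w' ⟨v, hv, a, rfl, hw⟩ ⟨v', hv', a', rfl, hw'⟩
    obtain ⟨c, hc, rfl⟩ := ih hv hv'
    obtain ⟨h1, h2⟩ := Img.mem hz hS hv
    rw [Val_smul (RingHom.id K) (φ.f_hom a')] at hw' ⊢
    have h3 : Val (RingHom.id K) (φ.f a') v ≠ 0 := by
      intro h; rw [h, smul_zero] at hw'; exact hw' rfl
    obtain ⟨c', hc', h4⟩ := Half.uniq φ.left φ.right φ.f_hom (RingHom.id K) h1 h2 hw h3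
    refine ⟨c ^ φ.d a' * c', mul_ne_zero (pow_ne_zero _ hc) hc', ?_⟩
    rw [h4, smul_smul]

theorem eval_poly_aeval (r : ι → Polynomial K) (s : K) (q : MvPolynomial ι K) :
    (aeval r q).eval s = eval (fun i => (r i).eval s) q := by
  induction q using MvPolynomial.induction_on with
  | C a => simp
  | add p q hp hq => simp only [map_add, Polynomial.eval_add, hp, hq]
  | mul_X p i hp => simp only [map_mul, aeval_X, eval_X, Polynomial.eval_mul, hp]

theorem t_GEN : S_GEN := by
  intro K _ ι _ _ S φ r hr k W e hW hinf s hs w hw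
  obtain ⟨Fk, D, hD, hFk, hFz, hFy⟩ := hw.tuple
  set Φ : ι → Polynomial K := fun i => aeval r (Fk i) with hΦ
  have hΦe : ∀ s' i, (Φ i).eval s' = eval (fun i => (r i).eval s') (Fk i) := fun s' i =>
    eval_poly_aeval r s' (Fk i)
  have hw0 := hw.ne_zero hs
  obtain ⟨i0, hi0⟩ := Function.ne_iff.1 hw0
  have hΦ0 : Φ i0 ≠ 0 := by
    intro h
    apply hi0
    rw [← hFz]
    change eval _ (Fk i0) = 0
    rw [← hΦe, h, Polynomial.eval_zero]
  have hg : aeval Φ W = 0 := by
    have h1 : Φ i0 * aeval Φ W = 0 := by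
      refine Polynomial.eq_zero_of_infinite_isRoot _ (hinf.mono ?_)
      rintro s' ⟨hs', w', hw', hW'⟩
      change Polynomial.eval s' (Φ i0 * aeval Φ W) = 0
      rw [Polynomial.eval_mul]
      by_cases h0 : (Φ i0).eval s' = 0
      · rw [h0, zero_mul]
      · have h2 : (fun i => eval (fun i => (r i).eval s') (Fk i)) ≠ 0 := by
          intro h
          apply h0
          rw [hΦe]
          exact congrFun h i0
        obtain ⟨c, -, hc⟩ := img_uniq φ hs' (fun q hq => hr q hq s') k hw' (hFy _ h2)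
        have h3 : (aeval Φ W).eval s' = 0 := by
          rw [eval_poly_aeval]
          have e1 : (fun i => (Φ i).eval s') = c • w' := by
            rw [← hc]; funext i; exact hΦe s' i
          rw [e1, eval_smul_hom hW, hW', mul_zero]
        rw [h3, mul_zero]
    exact (mul_eq_zero.1 h1).resolve_left hΦ0
  have h5 := eval_poly_aeval Φ s W
  rw [hg, Polynomial.eval_zero] at h5
  have e2 : (fun i => (Φ i).eval s) = w := by
    rw [← hFz]; funext i; exact hΦe s i
  rw [e2] at h5
  exact h5.symm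

end Pool.Agent.K1H45.RC
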