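import Pool.Agent.K1H47.RC.Stm2

set_option autoImplicit false

/-! The orbits through a polynomial arc as Newton series: the piece `S_SHAD`. -/

namespace Pool.Agent.K1H45.RC

open Pool.Agent.K1H47.RC Pool.Agent.H936R2 Pool.Agent.R847.Gap Pool.Agent.K1H69.MZ
open MvPolynomial Filter Topology

/-! ### almost periodicity over a ring -/

theorem choose_dvd (p : ℕ) [hp : Fact p.Prime] (c j : ℕ) :
    p ^ c ∣ (p ^ c).choose (j + 1) * p ^ (j + 1) := by
  have h6 : p ^ c - 1 + 1 = p ^ c := Nat.succ_pred_eq_of_pos (pow_pos hp.out.pos _)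
  have h7 := Nat.add_one_mul_choose_eq (p ^ c - 1) j
  rw [h6] at h7
  have h1 : p ^ c ∣ (p ^ c).choose (j + 1) * (j + 1) := ⟨_, h7.symm⟩
  have hne : j + 1 ≠ 0 := Nat.succ_ne_zero j
  set v := (j + 1).factorization p with hv
  have h2 : p ^ v * ((j + 1) / p ^ v) = j + 1 := Nat.ordProj_mul_ordCompl_eq_self (j + 1) p
  have h3 : Nat.Coprime (p ^ c) ((j + 1) / p ^ v) :=
    Nat.Coprime.pow_left c (Nat.coprime_ordCompl hp.out hne)
  have h4 : p ^ c ∣ (p ^ c).choose (j + 1) * p ^ v := by
    refine h3.dvd_of_dvd_mul_right ?_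
    rw [mul_assoc, h2]
    exact h1
  have h5 : v ≤ j + 1 := (Nat.factorization_lt p hne).le
  exact h4.trans (mul_dvd_mul_left _ (pow_dvd_pow p h5))

section ring

variable {R : Type} [CommRing R] (p : ℕ) [hp : Fact p.Prime]

theorem shift_dvd (V : ℕ → R)
    (hV : ∀ k n j, k ≤ n → k ≤ j → ((p : R) ^ 2) ^ k ∣ (fwdDiff 1)^[j] V n) (n c : ℕ) :
    (p : R) ^ (min c (2 * n)) ∣ V (n + p ^ c) - V n := by
  have h1 := shift_eq_sum_fwdDiff_iter (1 : ℕ) V (p ^ c) n
  simp only [smul_eq_mul, mul_one] at h1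
  rw [Finset.sum_range_succ'] at h1
  simp only [Function.iterate_zero, id_eq, Nat.choose_zero_right, one_smul] at h1
  rw [h1, add_sub_cancel_right]
  refine Finset.dvd_sum fun j _ => ?_
  rw [nsmul_eq_mul]
  by_cases hj : j + 1 ≤ n
  · have h2 := hV (j + 1) n (j + 1) hj le_rfl
    have h3 : (p : R) ^ c ∣ (((p ^ c).choose (j + 1) : ℕ) : R) * (p : R) ^ (j + 1) := by
      have := (Nat.cast_dvd_cast (α := R) (choose_dvd p c j))
      push_cast at this
      exact this
    have h4 : (p : R) ^ (j + 1) ∣ (fwdDiff 1)^[j + 1] V n := by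
      refine dvd_trans ?_ h2
      rw [← pow_mul]
      exact pow_dvd_pow _ (by omega)
    exact (pow_dvd_pow _ (min_le_left _ _)).trans (h3.trans (mul_dvd_mul_left _ h4))
  · have h2 := hV n n (j + 1) le_rfl (by omega)
    rw [← pow_mul] at h2
    exact (pow_dvd_pow _ (min_le_right _ _)).trans (h2.trans (dvd_mul_left _ _))

theorem shift_mul (V : ℕ → R)
    (hV : ∀ k n j, k ≤ n → k ≤ j → ((p : R) ^ 2) ^ k ∣ (fwdDiff 1)^[j] V n) (c l : ℕ) :
    (p : R) ^ c ∣ V (p ^ c * (l + 1)) - V (p ^ c) := by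
  induction l with
  | zero => simp
  | succ l ih =>
    have h1 := shift_dvd p V hV (p ^ c * (l + 1)) c
    have h2 : c ≤ p ^ c := (Nat.lt_pow_self hp.out.one_lt).le
    have h3 : c ≤ 2 * (p ^ c * (l + 1)) := by
      have : p ^ c ≤ p ^ c * (l + 1) := Nat.le_mul_of_pos_right _ (Nat.succ_pos l)
      omega
    rw [min_eq_left h3] at h1
    have e : V (p ^ c * (l + 1 + 1)) - V (p ^ c) =
        (V (p ^ c * (l + 1) + p ^ c) - V (p ^ c * (l + 1))) +
          (V (p ^ c * (l + 1)) - V (p ^ c)) := by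
      rw [Nat.mul_succ]; ring
    rw [e]
    exact dvd_add h1 ih

theorem shift_succ (V : ℕ → R)
    (hV : ∀ k n j, k ≤ n → k ≤ j → ((p : R) ^ 2) ^ k ∣ (fwdDiff 1)^[j] V n) (c : ℕ) :
    (p : R) ^ c ∣ V (p ^ (c + 1)) - V (p ^ c) := by
  have h1 := shift_mul p V hV c (p - 1)
  have h2 : p - 1 + 1 = p := Nat.succ_pred_eq_of_pos hp.out.pos
  rwa [h2, ← pow_succ] at h1

end ring

/-! ### polynomials over the integers -/

section poly

variable {L : Type} [NormedField L] [IsUltrametricDist L]

/-- the value of a polynomial -/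
noncomputable def fn (P : Polynomial (unitBall L)) (s : L) : L :=
  P.eval₂ (unitBall L).subtype s

theorem fn_coe (P : Polynomial (unitBall L)) (s : unitBall L) :
    fn P (s : L) = ((P.eval s : unitBall L) : L) := by
  have h := Polynomial.hom_eval₂ P (RingHom.id _) (unitBall L).subtype s
  rw [RingHom.comp_id] at h
  exact h.symm

theorem fn_norm (P : Polynomial (unitBall L)) {s : L} (hs : ‖s‖ ≤ 1) : ‖fn P s‖ ≤ 1 := by
  have h := fn_coe P ⟨s, hs⟩
  change fn P s = _ at h
  rw [h]
  exact unitBall_norm_le _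

/-- Taylor formula of order one -/
theorem taylor {O : Type} [CommRing O] (P : Polynomial O) (s s' s₁ : O) :
    ∃ a b : O, P.eval s - P.eval s' - (Polynomial.derivative P).eval s₁ * (s - s') =
      (s - s') * (a * (s - s₁) + b * (s' - s₁)) := by
  induction P using Polynomial.induction_on with
  | C a => exact ⟨0, 0, by simp⟩
  | add P Q hP hQ =>
    obtain ⟨a, b, h⟩ := hP
    obtain ⟨a', b', h'⟩ := hQ
    refine ⟨a + a', b + b', ?_⟩
    simp only [Polynomial.eval_add, Polynomial.derivative_add]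
    linear_combination h + h'
  | monomial n r ih =>
    obtain ⟨a, b, h⟩ := ih
    obtain ⟨d, hd⟩ := Polynomial.sub_dvd_eval_sub s' s₁ (Polynomial.C r * Polynomial.X ^ n)
    refine ⟨s * a + (Polynomial.derivative (Polynomial.C r * Polynomial.X ^ n)).eval s₁,
      s * b + d, ?_⟩
    have e : (Polynomial.C r * Polynomial.X ^ (n + 1) : Polynomial O)
        = (Polynomial.C r * Polynomial.X ^ n) * Polynomial.X := by ring
    rw [e]
    set f : Polynomial O := Polynomial.C r * Polynomial.X ^ n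
    simp only [Polynomial.derivative_mul, Polynomial.derivative_X, Polynomial.eval_mul,
      Polynomial.eval_add, Polynomial.eval_X, mul_one]
    linear_combination s * h + (s - s') * hd

theorem fn_taylor (P : Polynomial (unitBall L)) {s s' s₁ : L} (hs : ‖s‖ ≤ 1) (hs' : ‖s'‖ ≤ 1)
    (hs₁ : ‖s₁‖ ≤ 1) : ‖fn P s - fn P s' - fn (Polynomial.derivative P) s₁ * (s - s')‖ ≤
      ‖s - s'‖ * max ‖s - s₁‖ ‖s' - s₁‖ := by
  obtain ⟨a, b, h⟩ := taylor P (⟨s, hs⟩ : unitBall L) ⟨s', hs'⟩ ⟨s₁, hs₁⟩
  have h1 := fn_coe P ⟨s, hs⟩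
  have h2 := fn_coe P ⟨s', hs'⟩
  have h3 := fn_coe (Polynomial.derivative P) ⟨s₁, hs₁⟩
  change fn P s = _ at h1
  change fn P s' = _ at h2
  change fn _ s₁ = _ at h3
  have h4 := congrArg (fun x : unitBall L => (x : L)) h
  simp only [AddSubgroupClass.coe_sub, Subring.coe_mul, Subring.coe_add] at h4
  rw [← h1, ← h2, ← h3] at h4
  rw [h4, norm_mul]
  refine mul_le_mul_of_nonneg_left ?_ (norm_nonneg _)
  refine (IsUltrametricDist.norm_add_le_max _ _).trans (max_le_max ?_ ?_)
  · rw [norm_mul]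
    exact mul_le_of_le_one_left (norm_nonneg _) (unitBall_norm_le a)
  · rw [norm_mul]
    exact mul_le_of_le_one_left (norm_nonneg _) (unitBall_norm_le b)

variable (p : ℕ)

theorem fn_pow_mul (k : ℕ) (Z : Polynomial (unitBall L)) (s : L) :
    fn ((p : Polynomial (unitBall L)) ^ k * Z) s = (p : L) ^ k * fn Z s := by
  unfold fn
  rw [Polynomial.eval₂_mul, Polynomial.eval₂_pow, Polynomial.eval₂_natCast]

theorem der_pow_mul (k : ℕ) (Z : Polynomial (unitBall L)) :
    Polynomial.derivative ((p : Polynomial (unitBall L)) ^ k * Z) =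
      (p : Polynomial (unitBall L)) ^ k * Polynomial.derivative Z := by
  have e : (p : Polynomial (unitBall L)) ^ k = Polynomial.C ((p : unitBall L) ^ k) := by
    rw [map_pow, Polynomial.C_eq_natCast]
  rw [e, Polynomial.derivative_C_mul]

theorem dv_norm {k : ℕ} {P : Polynomial (unitBall L)} (h : (p : Polynomial (unitBall L)) ^ k ∣ P)
    {s : L} (hs : ‖s‖ ≤ 1) : ‖fn P s‖ ≤ ‖(p : L)‖ ^ k := by
  obtain ⟨Z, rfl⟩ := h
  rw [fn_pow_mul, norm_mul, norm_pow]
  exact mul_le_of_le_one_right (by positivity) (fn_norm Z hs)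

theorem dv_der {k : ℕ} {P : Polynomial (unitBall L)} (h : (p : Polynomial (unitBall L)) ^ k ∣ P) :
    (p : Polynomial (unitBall L)) ^ k ∣ Polynomial.derivative P := by
  obtain ⟨Z, rfl⟩ := h
  exact ⟨_, der_pow_mul p k Z⟩

theorem sm_poly {k : ℕ} {P : Polynomial (unitBall L)}
    (h : (p : Polynomial (unitBall L)) ^ k ∣ P) :
    Sm (‖(p : L)‖ ^ k) (fn P) (fn (Polynomial.derivative P)) := by
  refine ⟨fun s hs => dv_norm p h hs, fun s hs => dv_norm p (dv_der p h) hs,
    fun s s' s₁ hs hs' hs₁ => ?_⟩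
  obtain ⟨Z, rfl⟩ := h
  rw [der_pow_mul, fn_pow_mul, fn_pow_mul, fn_pow_mul]
  have e : (p : L) ^ k * fn Z s - (p : L) ^ k * fn Z s' -
      (p : L) ^ k * fn (Polynomial.derivative Z) s₁ * (s - s') =
      (p : L) ^ k * (fn Z s - fn Z s' - fn (Polynomial.derivative Z) s₁ * (s - s')) := by ring
  rw [e, norm_mul, norm_pow]
  exact mul_le_mul_of_nonneg_left (fn_taylor Z hs hs' hs₁) (by positivity)

theorem sm_lim {C : ℝ} {f f' : ℕ → L → L} {a a' : L → L} (h : ∀ᶠ c in atTop, Sm C (f c) (f' c))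
    (h1 : ∀ s, ‖s‖ ≤ 1 → Tendsto (fun c => f c s) atTop (𝓝 (a s)))
    (h2 : ∀ s, ‖s‖ ≤ 1 → Tendsto (fun c => f' c s) atTop (𝓝 (a' s))) : Sm C a a' := by
  refine ⟨fun s hs => ?_, fun s hs => ?_, fun s s' s₁ hs hs' hs₁ => ?_⟩
  · refine le_of_tendsto (h1 s hs).norm ?_
    filter_upwards [h] with c hc using hc.1 s hs
  · refine le_of_tendsto (h2 s hs).norm ?_
    filter_upwards [h] with c hc using hc.2.1 s hs
  · refine le_of_tendsto ((((h1 s hs).sub (h1 s' hs')).sub
      ((h2 s₁ hs₁).mul_const (s - s'))).norm) ?_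
    filter_upwards [h] with c hc using hc.2.2 s s' s₁ hs hs' hs₁

/-- convergence -/
theorem ex_lim [CompleteSpace L] (hpL : ‖(p : L)‖ < 1) (W : ℕ → Polynomial (unitBall L))
    (h : ∀ c, (p : Polynomial (unitBall L)) ^ c ∣ W (c + 1) - W c) (s : L) :
    ∃ y : L, ‖s‖ ≤ 1 → Tendsto (fun c => fn (W c) s) atTop (𝓝 y) := by
  by_cases hs : ‖s‖ ≤ 1
  · have h1 : CauchySeq fun c => fn (W c) s := by
      refine cauchySeq_of_le_geometric ‖(p : L)‖ 1 hpL fun c => ?_
      rw [dist_eq_norm, norm_sub_rev, one_mul]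
      have h2 := dv_norm p (h c) hs
      have e : fn (W (c + 1) - W c) s = fn (W (c + 1)) s - fn (W c) s := by
        unfold fn; rw [Polynomial.eval₂_sub]
      rwa [e] at h2
    obtain ⟨y, hy⟩ := cauchySeq_tendsto_of_complete h1
    exact ⟨y, fun _ => hy⟩
  · exact ⟨0, fun h => absurd h hs⟩

end poly

/-! ### the polynomial orbit -/

section orbit

variable {ι : Type} {O : Type} [CommRing O]

theorem map_eval (v : ι → Polynomial O) (s : O) (q : MvPolynomial ι O) :
    (eval v (map Polynomial.C q)).eval s = eval (fun i => (v i).eval s) q := by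
  induction q using MvPolynomial.induction_on with
  | C a => simp
  | add p q hp hq => simp only [map_add, Polynomial.eval_add, hp, hq]
  | mul_X p i hp => simp only [map_mul, map_X, eval_X, Polynomial.eval_mul, hp]

theorem pt_eval (H : ι → MvPolynomial ι O) (s : O) (n : ℕ) : ∀ v : ι → Polynomial O,
    (fun i => ((pt fun i => map Polynomial.C (H i))^[n] v i).eval s) =
      (pt H)^[n] (fun i => (v i).eval s) := by
  induction n with
  | zero => intro v; rfl
  | succ n ih =>
    intro v
    rw [Function.iterate_succ_apply, Function.iterate_succ_apply, ih]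
    congr 1
    funext i
    exact map_eval v s (H i)

theorem idem_map (π : O) (H : ι → MvPolynomial ι O) (hH : IdemMod π H) :
    IdemMod (Polynomial.C π) (fun i => map Polynomial.C (H i)) := by
  intro q
  have h := cong_algHom (π := Polynomial.C π)
    ((aeval fun i => map Polynomial.C (H i)).comp (aeval fun i => map Polynomial.C (H i)))
    (aeval fun i => map Polynomial.C (H i)) (fun i => ?_) q
  · exact h
  · obtain ⟨r, hr⟩ := hH (X i)
    refine ⟨map Polynomial.C r, ?_⟩
    rw [AlgHom.comp_apply, aeval_X]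
    rw [aeval_X] at hr
    have h1 : (aeval fun i => map Polynomial.C (H i)) (map Polynomial.C (H i)) =
        map Polynomial.C (aeval H (H i)) := (map_bind₁ Polynomial.C H (H i)).symm
    rw [h1, ← map_sub, hr, map_mul, map_C]

end orbit


/-! ### the main statement -/

theorem t_SHAD : S_SHAD := by
  intro L _ _ _ _ p hp hpL ι _ _ A B Q F G hG x hxp k H hW u hu
  have hp0 := norm_p_pos' (L := L) p
  have hprim : ∀ v : ι → unitBall L, Prim (dsc p x v) := fun v => prim_add p hpL hxp
  -- the polynomial orbit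
  set H' : ι → MvPolynomial ι (Polynomial (unitBall L)) := fun i => map Polynomial.C (H i) with hH'
  have hId : IdemMod ((p : Polynomial (unitBall L)) ^ 2) H' := by
    have h := idem_map ((p : unitBall L) ^ 2) H hW.idem
    rwa [map_pow, Polynomial.C_eq_natCast] at h
  set U : ι → ℕ → Polynomial (unitBall L) := fun i => valSeq H' u (X i) with hU
  have hUs : ∀ (s : unitBall L) (i : ι) (n : ℕ),
      fn (U i n) (s : L) = (((pt H)^[n] (fun i => (u i).eval s) i : unitBall L) : L) := by
    intro s i n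
    rw [fn_coe]
    congr 1
    have h := congrFun (pt_eval H s n u) i
    rw [← h]
    simp only [hU, valSeq, eval_X, hH']
  -- its differences
  set V : ι → ℕ → ℕ → Polynomial (unitBall L) := fun i j => (fwdDiff 1)^[j] (U i) with hV
  have hVd : ∀ i j k n m, k ≤ n → k ≤ m →
      ((p : Polynomial (unitBall L)) ^ 2) ^ k ∣ (fwdDiff 1)^[m] (V i j) n := by
    intro i j k n m hn hm
    have h := valSeq_diff_dvd ((p : Polynomial (unitBall L)) ^ 2) H' hId u (X i) k n (m + j) hn
      (by omega)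
    rw [Function.iterate_add_apply] at h
    exact h
  have hVs : ∀ i j c, (p : Polynomial (unitBall L)) ^ c ∣ V i j (p ^ (c + 1)) - V i j (p ^ c) :=
    fun i j c => shift_succ p (V i j) (hVd i j) c
  have hVb : ∀ i j, ∀ᶠ c in atTop, (p : Polynomial (unitBall L)) ^ (2 * j) ∣ V i j (p ^ c) := by
    intro i j
    filter_upwards [eventually_ge_atTop j] with c hc
    have h1 : c ≤ p ^ c := (Nat.lt_pow_self hp.out.one_lt).le
    have h := valSeq_diff_dvd ((p : Polynomial (unitBall L)) ^ 2) H' hId u (X i) j (p ^ c) j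
      (hc.trans h1) le_rfl
    rw [← pow_mul] at h
    exact h
  -- the limits
  choose a ha using fun i j s => ex_lim p hpL (fun c => V i j (p ^ c)) (hVs i j) s
  choose a' ha' using fun i j s => ex_lim p hpL (fun c => Polynomial.derivative (V i j (p ^ c)))
    (fun c => by
      rw [← Polynomial.derivative_sub]
      exact dv_der p (hVs i j c)) s
  have hSm : ∀ i j, Sm (‖(p : L)‖ ^ (2 * j)) (a i j) (a' i j) := fun i j =>
    sm_lim (f := fun c => fn (V i j (p ^ c)))
      (f' := fun c => fn (Polynomial.derivative (V i j (p ^ c))))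
      ((hVb i j).mono fun c hc => sm_poly p hc) (fun s hs => ha i j s hs) (fun s hs => ha' i j s hs)
  refine ⟨a, a', hSm, fun s n => ?_⟩
  set us : ι → unitBall L := fun i => (u i).eval s with hus
  have hs1 : ‖(s : L)‖ ≤ 1 := unitBall_norm_le s
  -- the shadow point
  have hy1 : ∀ i, ‖a i 0 s‖ ≤ 1 := fun i => by
    have h := (hSm i 0).1 s hs1
    simpa using h
  let y : ι → unitBall L := fun i => ⟨a i 0 s, hy1 i⟩
  have hlim : Tendsto (fun c => (pt H)^[p ^ c] us) atTop (𝓝 y) := by
    rw [tendsto_pi_nhds]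
    intro i
    rw [tendsto_subtype_rng]
    refine (ha i 0 s hs1).congr fun c => ?_
    exact hUs s i (p ^ c)
  have hpt : Continuous (pt H) := by
    apply continuous_pi
    intro i
    exact MvPolynomial.continuous_eval _
  have hlimn : ∀ n, Tendsto (fun c => (pt H)^[n + p ^ c] us) atTop (𝓝 ((pt H)^[n] y)) := by
    intro n
    refine (((hpt.iterate n).tendsto y).comp hlim).congr fun c => ?_
    rw [Function.comp_apply, ← Function.iterate_add_apply]
  have hlimi : ∀ n i, Tendsto (fun c => (((pt H)^[n + p ^ c] us i : unitBall L) : L)) atTop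
      (𝓝 (((pt H)^[n] y i : unitBall L) : L)) := fun n i =>
    (continuous_subtype_val.tendsto _).comp ((tendsto_pi_nhds.1 (hlimn n)) i)
  have hyQ : dsc p x y ∈ ZS Q := by
    intro r hr
    have hc : Continuous fun v : ι → unitBall L => eval (dsc p x v) r := by
      have h1 : Continuous fun v : ι → unitBall L => dsc p x v := by
        apply continuous_pi
        intro i
        exact continuous_const.add (continuous_const.mul (continuous_apply i))
      exact (MvPolynomial.continuous_eval _).comp h1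
    have h2 := (hc.tendsto y).comp hlim
    have h3 : Tendsto (fun _ : ℕ => (0 : unitBall L)) atTop (𝓝 0) := tendsto_const_nhds
    refine tendsto_nhds_unique h2 (h3.congr fun c => ?_)
    exact ((hW.orb us (hu s) (p ^ c)).1 r hr).symm
  -- the two orbits are exponentially near
  have hnear : ∀ n j, nm ((pt H)^[n] y j - (pt H)^[n] us j) ≤ ‖(p : L)‖ ^ (2 * n) := by
    intro n j
    have h1 : Tendsto (fun c => ‖(((pt H)^[n + p ^ c] us j : unitBall L) : L) -
        (((pt H)^[n] us j : unitBall L) : L)‖) atTop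
        (𝓝 ‖(((pt H)^[n] y j : unitBall L) : L) - (((pt H)^[n] us j : unitBall L) : L)‖) :=
      ((hlimi n j).sub_const _).norm
    have e : nm ((pt H)^[n] y j - (pt H)^[n] us j) =
        ‖(((pt H)^[n] y j : unitBall L) : L) - (((pt H)^[n] us j : unitBall L) : L)‖ := by
      simp only [nm]; push_cast; rfl
    rw [e]
    refine le_of_tendsto h1 ?_
    obtain ⟨m, hm⟩ := exists_pow_lt_of_lt_one (show 0 < ‖(p : L)‖ ^ (2 * n) by positivity) hpL
    filter_upwards [eventually_ge_atTop m] with c hc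
    have h2 := valSeq_shift' p hpL H hW.idem us (X j) n c
    simp only [valSeq, eval_X] at h2
    refine h2.trans (max_le ?_ le_rfl)
    refine le_trans ?_ hm.le
    exact pow_le_pow_of_le_one hp0.le hpL.le hc
  have hcl : ∀ n, 0 < n → Cl (‖(p : L)‖ ^ (2 * n)) (dsc p x us) (dsc p x y) := by
    intro n hn
    refine Rp.back hG (by positivity) (pow_lt_one₀ hp0.le hpL (by omega)) (hu s) (hprim _) hyQ
      (hprim _) (hW.orb us (hu s) n).2 (hW.orb y hyQ n).2 ?_
    refine Cl.of_near (c := 1) fun j => ?_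
    have e : dsc p x ((pt H)^[n] y) j - 1 * dsc p x ((pt H)^[n] us) j =
        (p : unitBall L) ^ 2 * ((pt H)^[n] y j - (pt H)^[n] us j) := by
      simp only [dsc]; ring
    rw [e]
    exact nm_mul_le_right _ (hnear n j)
  have hcl0 : Cl 0 (dsc p x us) (dsc p x y) := by
    intro i j
    refine le_of_forall_pos_lt_add fun ε hε => ?_
    obtain ⟨n, hn⟩ := exists_pow_lt_of_lt_one hε hpL
    rw [zero_add]
    refine (hcl (n + 1) (Nat.succ_pos n) i j).trans_lt (lt_of_le_of_lt ?_ hn)
    exact pow_le_pow_of_le_one hp0.le hpL.le (by omega)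
  refine ⟨(pt H)^[n] y, fun i => ?_, ?_⟩
  · -- Newton's formula
    have h1 : Tendsto (fun c => ∑ j ∈ Finset.range (n + 1), (n.choose j : L) *
        fn (V i j (p ^ c)) s) atTop
        (𝓝 (∑ j ∈ Finset.range (n + 1), (n.choose j : L) * a i j s)) :=
      tendsto_finsetSum _ fun j _ => (ha i j s hs1).const_mul _
    refine tendsto_nhds_unique (hlimi n i) (h1.congr fun c => ?_)
    have h2 := shift_eq_sum_fwdDiff_iter (1 : ℕ) (U i) n (p ^ c)
    simp only [smul_eq_mul, mul_one] at h2
    rw [← hUs s i, add_comm n (p ^ c), h2]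
    unfold fn
    rw [Polynomial.eval₂_finsetSum]
    refine Finset.sum_congr rfl fun j _ => ?_
    rw [nsmul_eq_mul, Polynomial.eval₂_mul, Polynomial.eval₂_natCast]
  · have h1 := (Rp.add hG (hu s) (hprim _) 0 (k * n)).2
      ⟨dsc p x y, ⟨hprim _, hcl0⟩, (hW.orb y hyQ n).2⟩
    rwa [zero_add] at h1

end Pool.Agent.K1H45.RC
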